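import Mathlib

/-!
# The inequality of Motzkin and Straus
-/

namespace Pool.Agent.NPO

open Finset

variable {V : Type*} [Fintype V] [DecidableEq V]

/-- If all sets of vertices without adjacent pairs have at most `s` elements, then
`(∑ v)² ≤ s (∑ v² + v A v)` for all nonnegative `v`. -/
theorem motzkin (A : V → V → ℝ) (hA : ∀ i j, A i j = 0 ∨ A i j = 1) (hsym : ∀ i j, A i j = A j i)
    (hdiag : ∀ i, A i i = 0) (s : ℝ)
    (hs : ∀ S : Finset V, (∀ i ∈ S, ∀ j ∈ S, A i j = 0) → (S.card : ℝ) ≤ s) :
    ∀ v : V → ℝ, (∀ i, 0 ≤ v i) →
      (∑ i, v i) ^ 2 ≤ s * (∑ i, v i ^ 2 + ∑ i, ∑ j, A i j * v i * v j) := by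
  -- induction on the support
  suffices H : ∀ N : ℕ, ∀ v : V → ℝ, (∀ i, 0 ≤ v i) →
      (Finset.univ.filter fun i => v i ≠ 0).card ≤ N →
      (∑ i, v i) ^ 2 ≤ s * (∑ i, v i ^ 2 + ∑ i, ∑ j, A i j * v i * v j) by
    intro v hv
    exact H _ v hv le_rfl
  intro N
  have hs0 : 0 ≤ s := by
    have := hs ∅ (by simp)
    simpa using this
  induction N with
  | zero =>
    intro v hv hN
    have h0 : ∀ i, v i = 0 := by
      intro i
      by_contra h
      have : i ∈ (Finset.univ.filter fun i => v i ≠ 0) := by simp [h]
      have := Finset.card_pos.2 ⟨i, this⟩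
      omega
    simp [h0]
  | succ N ih =>
    intro v hv hN
    set S := Finset.univ.filter fun i => v i ≠ 0 with hS
    by_cases hind : ∀ i ∈ S, ∀ j ∈ S, A i j = 0
    · -- independent support
      have h1 : ∑ i, ∑ j, A i j * v i * v j = 0 := by
        refine Finset.sum_eq_zero fun i _ => Finset.sum_eq_zero fun j _ => ?_
        by_cases hi : v i = 0
        · rw [hi]; ring
        · by_cases hj : v j = 0
          · rw [hj]; ring
          · rw [hind i (by simp [hS, hi]) j (by simp [hS, hj])]; ring
      have h2 : ∑ i, v i = ∑ i ∈ S, v i := by
        rw [hS, Finset.sum_filter_ne_zero]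
      have h3 : (∑ i ∈ S, v i) ^ 2 ≤ S.card * ∑ i ∈ S, v i ^ 2 := sq_sum_le_card_mul_sum_sq
      have h4 : ∑ i ∈ S, v i ^ 2 ≤ ∑ i, v i ^ 2 :=
        Finset.sum_le_sum_of_subset_of_nonneg (Finset.subset_univ _) fun _ _ _ => sq_nonneg _
      rw [h1, add_zero, h2]
      calc (∑ i ∈ S, v i) ^ 2 ≤ S.card * ∑ i ∈ S, v i ^ 2 := h3
        _ ≤ s * ∑ i ∈ S, v i ^ 2 :=
          mul_le_mul_of_nonneg_right (hs S hind) (Finset.sum_nonneg fun _ _ => sq_nonneg _)
        _ ≤ s * ∑ i, v i ^ 2 := mul_le_mul_of_nonneg_left h4 hs0
    · push Not at hind
      obtain ⟨p, hp, q, hq, hpq⟩ := hind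
      have hApq : A p q = 1 := (hA p q).resolve_left hpq
      have hne : p ≠ q := by
        rintro rfl
        rw [hdiag p] at hApq
        norm_num at hApq
      have hvp : 0 < v p := lt_of_le_of_ne (hv p) (Ne.symm (by simpa [hS] using hp))
      have hvq : 0 < v q := lt_of_le_of_ne (hv q) (Ne.symm (by simpa [hS] using hq))
      -- the direction
      set e : V → ℝ := fun i => (if i = p then 1 else 0) - (if i = q then 1 else 0) with he
      have hq' : ∀ t : ℝ, ∑ i, (v i + t * e i) ^ 2 +
          ∑ i, ∑ j, A i j * (v i + t * e i) * (v j + t * e j) =
          (∑ i, v i ^ 2 + ∑ i, ∑ j, A i j * v i * v j) +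
          2 * t * (∑ i, v i * e i + ∑ i, ∑ j, A i j * v i * e j) := by
        intro t
        have hee : ∑ i, e i ^ 2 = 2 := by
          have : ∀ i, e i ^ 2 = (if i = p then 1 else 0) + (if i = q then (1 : ℝ) else 0) := by
            intro i
            simp only [he]
            by_cases h1 : i = p
            · have h2 : i ≠ q := fun h => hne (h1 ▸ h)
              simp [h1, hne]
            · by_cases h2 : i = q
              · simp [h2, Ne.symm hne]
              · simp [h1, h2]
          rw [Finset.sum_congr rfl fun i _ => this i, Finset.sum_add_distrib]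
          simp
          norm_num
        have hAee : ∑ i, ∑ j, A i j * e i * e j = -2 := by
          have h1 : ∀ i, ∑ j, A i j * e i * e j = e i * (A i p - A i q) := by
            intro i
            have : ∀ j, A i j * e i * e j = e i * ((if j = p then A i j else 0) -
                (if j = q then A i j else 0)) := by
              intro j
              simp only [he]
              by_cases h1 : j = p
              · have h2 : j ≠ q := fun h => hne (h1 ▸ h)
                simp [h1, hne]
                ring
              · by_cases h2 : j = q
                · simp [h2, Ne.symm hne]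
                  ring
                · simp [h1, h2]
            rw [Finset.sum_congr rfl fun j _ => this j, ← Finset.mul_sum,
              Finset.sum_sub_distrib]
            simp
          rw [Finset.sum_congr rfl fun i _ => h1 i]
          have : ∀ i, e i * (A i p - A i q) = (if i = p then (A i p - A i q) else 0) -
              (if i = q then (A i p - A i q) else 0) := by
            intro i
            simp only [he]
            by_cases h1 : i = p
            · have h2 : i ≠ q := fun h => hne (h1 ▸ h)
              simp [h1, hne]
            · by_cases h2 : i = q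
              · simp [h2, Ne.symm hne]
              · simp [h1, h2]
          rw [Finset.sum_congr rfl fun i _ => this i, Finset.sum_sub_distrib]
          simp only [Finset.sum_ite_eq', Finset.mem_univ, if_true]
          rw [hdiag p, hdiag q, hsym q p, hApq]
          norm_num
        have hsw : ∑ i, ∑ j, A i j * e i * v j = ∑ i, ∑ j, A i j * v i * e j := by
          rw [Finset.sum_comm]
          refine Finset.sum_congr rfl fun i _ => Finset.sum_congr rfl fun j _ => ?_
          rw [hsym j i]
          ring
        have h1 : ∑ i, (v i + t * e i) ^ 2 = ∑ i, v i ^ 2 + 2 * t * ∑ i, v i * e i +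
            t ^ 2 * ∑ i, e i ^ 2 := by
          rw [Finset.mul_sum, Finset.mul_sum, ← Finset.sum_add_distrib,
            ← Finset.sum_add_distrib]
          refine Finset.sum_congr rfl fun i _ => by ring
        have h2 : ∑ i, ∑ j, A i j * (v i + t * e i) * (v j + t * e j) =
            ∑ i, ∑ j, A i j * v i * v j + t * ∑ i, ∑ j, A i j * v i * e j +
            t * ∑ i, ∑ j, A i j * e i * v j + t ^ 2 * ∑ i, ∑ j, A i j * e i * e j := by
          simp only [Finset.mul_sum, ← Finset.sum_add_distrib]
          refine Finset.sum_congr rfl fun i _ => Finset.sum_congr rfl fun j _ => by ring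
        rw [h1, h2, hsw, hee, hAee]
        ring
      have hsum : ∀ t : ℝ, ∑ i, (v i + t * e i) = ∑ i, v i := by
        intro t
        rw [Finset.sum_add_distrib, ← Finset.mul_sum]
        have : ∑ i, e i = 0 := by
          simp only [he, Finset.sum_sub_distrib]
          simp
        rw [this]
        ring
      -- a step to the boundary
      have hstep : ∀ t : ℝ, (∀ i, 0 ≤ v i + t * e i) → (v p + t = 0 ∨ v q - t = 0) →
          t * (∑ i, v i * e i + ∑ i, ∑ j, A i j * v i * e j) ≤ 0 →
          (∑ i, v i) ^ 2 ≤ s * (∑ i, v i ^ 2 + ∑ i, ∑ j, A i j * v i * v j) := by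
        intro t ht hz hg
        have hcard : (Finset.univ.filter fun i => v i + t * e i ≠ 0).card ≤ N := by
          have hsub : (Finset.univ.filter fun i => v i + t * e i ≠ 0) ⊂ S := by
            rw [Finset.ssubset_iff_of_subset]
            · rcases hz with hz | hz
              · refine ⟨p, hp, ?_⟩
                simp [he, hne, hz]
              · refine ⟨q, hq, ?_⟩
                simp only [Finset.mem_filter, Finset.mem_univ, true_and, not_not]
                simp only [he, if_neg (Ne.symm hne), if_true]
                linarith
            · intro i hi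
              simp only [Finset.mem_filter, Finset.mem_univ, true_and] at hi
              by_cases h1 : i = p
              · rw [h1]; exact hp
              · by_cases h2 : i = q
                · rw [h2]; exact hq
                · simp only [hS, Finset.mem_filter, Finset.mem_univ, true_and]
                  simpa [he, h1, h2] using hi
          have := Finset.card_lt_card hsub
          omega
        have h := ih (fun i => v i + t * e i) ht hcard
        rw [hsum t, hq' t] at h
        refine h.trans (mul_le_mul_of_nonneg_left ?_ hs0)
        linarith
      rcases le_total 0 (∑ i, v i * e i + ∑ i, ∑ j, A i j * v i * e j) with hg | hg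
      · refine hstep (-(v p)) ?_ (Or.inl (by ring)) ?_
        · intro i
          simp only [he]
          by_cases h1 : i = p
          · have h2 : i ≠ q := fun h => hne (h1 ▸ h)
            simp [h1, hne]
          · by_cases h2 : i = q
            · simp [h2, Ne.symm hne]
              linarith
            · simp [h1, h2, hv i]
        · exact mul_nonpos_of_nonpos_of_nonneg (by linarith) hg
      · refine hstep (v q) ?_ (Or.inr (by ring)) ?_
        · intro i
          simp only [he]
          by_cases h1 : i = p
          · have h2 : i ≠ q := fun h => hne (h1 ▸ h)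
            simp [h1, hne]
            linarith
          · by_cases h2 : i = q
            · simp [h2, Ne.symm hne]
            · simp [h1, h2, hv i]
        · exact mul_nonpos_of_nonneg_of_nonpos hvq.le hg

end Pool.Agent.NPO
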