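import Pool.Agent.Lib_MP_30cc74_co.Step
import Pool.Agent.Lib_MP_30cc74_co.Motzkin

/-!
# The base case: independent sets and cliques are small
-/

namespace Pool.Agent.NPO

open Finset

variable {V : Type*} [Fintype V] [DecidableEq V]

/-- Extension by zero. -/
noncomputable def ext0 (S : Finset V) : ({i // i ∈ S} → ℝ) →ₗ[ℝ] (V → ℝ) where
  toFun c i := if h : i ∈ S then c ⟨i, h⟩ else 0
  map_add' c c' := by
    funext i
    by_cases h : i ∈ S <;> simp [h]
  map_smul' r c := by
    funext i
    by_cases h : i ∈ S <;> simp [h]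

omit [Fintype V] in
theorem ext0_apply (S : Finset V) (c : {i // i ∈ S} → ℝ) (i : V) :
    ext0 S c i = if h : i ∈ S then c ⟨i, h⟩ else 0 := rfl

theorem ext0_inj (S : Finset V) : Function.Injective (ext0 S) := by
  intro c c' h
  funext a
  have := congrFun h a.1
  rw [ext0_apply, ext0_apply, dif_pos a.2, dif_pos a.2] at this
  exact this

theorem ext0_zero {S : Finset V} (c : {i // i ∈ S} → ℝ) {i : V} (h : i ∉ S) : ext0 S c i = 0 := by
  rw [ext0_apply, dif_neg h]

theorem card_indep_le {A : Matrix V V ℝ} (hA : A.IsHermitian) (S : Finset V)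
    (hS : ∀ i ∈ S, ∀ j ∈ S, A i j = 0) :
    S.card ≤ (Finset.univ.filter fun a => hA.eigenvalues a ≤ 0).card := by
  have h := finrank_le_card hA (LinearMap.range (ext0 S)) (by
    rintro _ ⟨c, rfl⟩
    apply le_of_eq
    refine Finset.sum_eq_zero fun i _ => Finset.sum_eq_zero fun j _ => ?_
    by_cases hi : i ∈ S
    · by_cases hj : j ∈ S
      · rw [hS i hi j hj]; ring
      · rw [ext0_zero c hj]; ring
    · rw [ext0_zero c hi]; ring)
  rw [LinearMap.finrank_range_of_inj (ext0_inj S), Module.finrank_fintype_fun_eq_card] at h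
  simpa using h

theorem card_clique_le {A : Matrix V V ℝ} (hA : A.IsHermitian) (hdiag : ∀ i, A i i = 0)
    (S : Finset V) (hS : ∀ i ∈ S, ∀ j ∈ S, i ≠ j → A i j = 1) :
    S.card ≤ (Finset.univ.filter fun a => hA.eigenvalues a ≤ 0).card + 1 := by
  classical
  let ℓ : ({i // i ∈ S} → ℝ) →ₗ[ℝ] ℝ := (∑ i : V, LinearMap.proj i) ∘ₗ ext0 S
  have hℓ : ∀ c, ℓ c = ∑ i, ext0 S c i := by
    intro c
    simp [ℓ]
  let Φ : LinearMap.ker ℓ →ₗ[ℝ] (V → ℝ) := ext0 S ∘ₗ (LinearMap.ker ℓ).subtype
  have hinj : Function.Injective Φ := (ext0_inj S).comp Subtype.val_injective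
  have h := finrank_le_card hA (LinearMap.range Φ) (by
    rintro _ ⟨c, rfl⟩
    have h0 : ∑ i, Φ c i = 0 := by
      have := c.2
      rw [LinearMap.mem_ker, hℓ] at this
      exact this
    have hz : ∀ i, i ∉ S → Φ c i = 0 := fun i hi => ext0_zero _ hi
    have e : ∑ i, ∑ j, A i j * Φ c i * Φ c j = (∑ i, Φ c i) ^ 2 - ∑ i, Φ c i ^ 2 := by
      rw [pow_two, Finset.sum_mul_sum, ← Finset.sum_sub_distrib]
      refine Finset.sum_congr rfl fun i _ => ?_
      have e1 : ∀ j, A i j * Φ c i * Φ c j = Φ c i * Φ c j - if j = i then Φ c i ^ 2 else 0 := by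
        intro j
        by_cases hij : j = i
        · subst hij
          rw [hdiag, if_pos rfl]; ring
        · rw [if_neg hij]
          by_cases hi : i ∈ S
          · by_cases hj : j ∈ S
            · rw [hS i hi j hj (Ne.symm hij)]; ring
            · rw [hz j hj]; ring
          · rw [hz i hi]; ring
      rw [Finset.sum_congr rfl fun j _ => e1 j, Finset.sum_sub_distrib]
      simp
    rw [e, h0]
    have := Finset.sum_nonneg fun i (_ : i ∈ (Finset.univ : Finset V)) => sq_nonneg (Φ c i)
    linarith)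
  rw [LinearMap.finrank_range_of_inj hinj] at h
  have hker := LinearMap.finrank_range_add_finrank_ker ℓ
  have hr : Module.finrank ℝ (LinearMap.range ℓ) ≤ 1 := by
    have := Submodule.finrank_le (LinearMap.range ℓ)
    simpa using this
  rw [Module.finrank_fintype_fun_eq_card] at hker
  have hc : Fintype.card {i // i ∈ S} = S.card := by simp
  omega

omit [DecidableEq V] in
theorem form_nonneg {A : Matrix V V ℝ} (h01 : ∀ i j, A i j = 0 ∨ A i j = 1) {v : V → ℝ}
    (hv : ∀ i, 0 ≤ v i) : 0 ≤ ∑ i, ∑ j, A i j * v i * v j := by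
  refine Finset.sum_nonneg fun i _ => Finset.sum_nonneg fun j _ => ?_
  rcases h01 i j with h | h
  · rw [h]; simp
  · rw [h, one_mul]; exact mul_nonneg (hv i) (hv j)

omit [DecidableEq V] in
theorem form_le {A : Matrix V V ℝ} (h01 : ∀ i j, A i j = 0 ∨ A i j = 1) {v : V → ℝ}
    (hv : ∀ i, 0 ≤ v i) : ∑ i, ∑ j, A i j * v i * v j ≤ (∑ i, v i) ^ 2 := by
  rw [pow_two, Finset.sum_mul_sum]
  refine Finset.sum_le_sum fun i _ => Finset.sum_le_sum fun j _ => ?_
  rcases h01 i j with h | h
  · rw [h]; simpa using mul_nonneg (hv i) (hv j)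
  · rw [h, one_mul]

theorem hyp_base {A : Matrix V V ℝ} (hA : A.IsHermitian) (h01 : ∀ i j, A i j = 0 ∨ A i j = 1)
    (hdiag : ∀ i, A i i = 0) (k : ℕ)
    (hk : (Finset.univ.filter fun a => hA.eigenvalues a ≤ 0).card + 1 ≤ k)
    {δ : ℝ} (hδ : 0 ≤ δ) (hδk : δ * k ≤ 1) : Hyp A δ k := by
  have hk0 : (0 : ℝ) < k := by
    have : 0 < k := by omega
    exact_mod_cast this
  have hsym : ∀ i j, A i j = A j i := by
    intro i j
    have := congrFun (congrFun hA j) i
    simpa using this
  intro v hv
  have h1 := motzkin A h01 hsym hdiag k (fun S hS => by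
    have := card_indep_le hA S hS
    have h2 : S.card ≤ k := by omega
    exact_mod_cast h2) v hv
  have h2 := motzkin (fun i j => if i = j then 0 else 1 - A i j) (fun i j => by
      by_cases hij : i = j
      · simp [hij]
      · rcases h01 i j with h | h <;> simp [hij, h])
    (fun i j => by
      by_cases hij : i = j
      · simp [hij]
      · rw [if_neg hij, if_neg (Ne.symm hij), hsym i j])
    (fun i => by simp) k (fun S hS => by
      have := card_clique_le hA hdiag S (fun i hi j hj hij => by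
        have := hS i hi j hj
        rw [if_neg hij] at this
        linarith)
      have h2 : S.card ≤ k := by omega
      exact_mod_cast h2) v hv
  have e2 : ∑ i, ∑ j, (if i = j then 0 else 1 - A i j) * v i * v j =
      (∑ i, v i) ^ 2 - ∑ i, v i ^ 2 - ∑ i, ∑ j, A i j * v i * v j := by
    rw [pow_two, Finset.sum_mul_sum, ← Finset.sum_sub_distrib, ← Finset.sum_sub_distrib]
    refine Finset.sum_congr rfl fun i _ => ?_
    have e1 : ∀ j, (if i = j then 0 else 1 - A i j) * v i * v j =
        v i * v j - (if j = i then v i ^ 2 else 0) - A i j * v i * v j := by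
      intro j
      by_cases hij : i = j
      · subst hij
        rw [if_pos rfl, if_pos rfl, hdiag]; ring
      · rw [if_neg hij, if_neg (Ne.symm hij)]; ring
    rw [Finset.sum_congr rfl fun j _ => e1 j, Finset.sum_sub_distrib, Finset.sum_sub_distrib]
    simp
  rw [e2] at h2
  have hnn := form_nonneg h01 hv
  have hle := form_le h01 hv
  set F := ∑ i, ∑ j, A i j * v i * v j with hF
  set T := (∑ i, v i) ^ 2 with hT
  set C := ∑ i, v i ^ 2 with hC
  have hC0 : 0 ≤ C := Finset.sum_nonneg fun i _ => sq_nonneg _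
  rcases le_total 0 (T - k * C) with hs | hs
  · have h3 : δ * (T - k * C) ≤ (1 / k) * (T - k * C) := by
      refine mul_le_mul_of_nonneg_right ?_ hs
      rw [le_div_iff₀ hk0]
      exact hδk
    have h4 : (1 / (k : ℝ)) * (T - k * C) ≤ F := by
      rw [one_div, inv_mul_le_iff₀ hk0]
      linarith
    have h5 : (1 / (k : ℝ)) * (T - k * C) ≤ T - F := by
      rw [one_div, inv_mul_le_iff₀ hk0]
      have : 0 ≤ (k : ℝ) * C := by positivity
      linarith
    exact ⟨h3.trans h4, h3.trans h5⟩
  · have h3 : δ * (T - k * C) ≤ 0 := mul_nonpos_of_nonneg_of_nonpos hδ hs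
    exact ⟨h3.trans hnn, h3.trans (by linarith)⟩

end Pool.Agent.NPO
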