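import Pool.Agent.Lib_MP_30cc74_co.Recursion

/-!
# Explicit bounds
-/

namespace Pool.Agent.NPO

open Finset

variable {V : Type*} [Fintype V] [DecidableEq V]

/-- `δ_m = 2^(-2^m)` -/
noncomputable def dl (m : ℕ) : ℝ := (1 / 2) ^ (2 ^ m)

theorem dl_pos (m : ℕ) : 0 < dl m := by unfold dl; positivity

theorem dl_lt_one (m : ℕ) : dl m < 1 := by
  unfold dl
  exact pow_lt_one₀ (by norm_num) (by norm_num) (by positivity)

theorem dl_succ (m : ℕ) : dl (m + 1) = dl m ^ 2 := by
  unfold dl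
  rw [← pow_mul, pow_succ]

theorem sqrt_dl (m : ℕ) : Real.sqrt (dl (m + 1)) = dl m := by
  rw [dl_succ, Real.sqrt_sq (dl_pos m).le]

theorem log_three_le : Real.log 3 ≤ 8 / 5 * Real.log 2 := by
  have h : Real.log ((3 : ℝ) ^ 5) ≤ Real.log ((2 : ℝ) ^ 8) :=
    Real.log_le_log (by norm_num) (by norm_num)
  rw [Real.log_pow, Real.log_pow] at h
  push_cast at h
  linarith

theorem log_dl (m : ℕ) : Real.log (3 / dl m ^ 2) = Real.log 3 + 2 * 2 ^ m * Real.log 2 := by
  have h : (3 : ℝ) / dl m ^ 2 = 3 * 2 ^ (2 * 2 ^ m) := by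
    unfold dl
    rw [← pow_mul, one_div, inv_pow, div_inv_eq_mul, mul_comm (2 ^ m) 2]
  rw [h, Real.log_mul (by norm_num) (by positivity), Real.log_pow]
  push_cast
  ring

theorem numeric (m : ℕ) (hm : 1 ≤ m) :
    Real.log (3 / dl (m + 2) ^ 2) * dl m ≤ 25 / 4 / 2 ^ m := by
  rw [log_dl]
  set y : ℕ := 2 ^ m with hy
  have hy2 : 2 ≤ y := by
    rw [hy]
    calc 2 = 2 ^ 1 := by norm_num
      _ ≤ 2 ^ m := Nat.pow_le_pow_right (by norm_num) hm
  have hyR : (2 : ℝ) ≤ y := by exact_mod_cast hy2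
  have e1 : (2 : ℝ) ^ (m + 2) = 4 * y := by
    rw [hy]; push_cast; ring
  have e2 : (2 : ℝ) ^ m = y := by rw [hy]; push_cast; ring
  have e3 : dl m = 1 / 2 ^ y := by
    unfold dl
    rw [← hy, one_div, one_div, inv_pow]
  rw [e1, e2, e3, mul_one_div, div_le_div_iff₀ (by positivity) (by positivity)]
  have hl2 := Real.log_two_lt_d9
  have hl2' : 0 < Real.log 2 := Real.log_pos (by norm_num)
  have hl3 := log_three_le
  have h0 : (Real.log 3 + 2 * (4 * y) * Real.log 2) * y ≤
      (8 / 5 * 0.6931471808 + 8 * y * 0.6931471808) * y := by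
    refine mul_le_mul_of_nonneg_right ?_ (by positivity)
    nlinarith
  refine h0.trans ?_
  rcases Nat.lt_or_ge y 4 with h4 | h4
  · have hy' : y = 2 ∨ y = 3 := by omega
    have : y ≠ 3 := by
      intro h3
      rw [hy] at h3
      have : Even (2 ^ m) := (Nat.even_pow.2 ⟨even_two, by omega⟩)
      rw [h3] at this
      exact absurd this (by decide)
    have hy3 : y = 2 := by omega
    rw [hy3]
    norm_num
  · have hsq : (y : ℝ) ^ 2 ≤ 2 ^ y := by
      have : ∀ z : ℕ, 4 ≤ z → z ^ 2 ≤ 2 ^ z := by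
        intro z hz
        induction z, hz using Nat.le_induction with
        | base => norm_num
        | succ z hz ih =>
          rw [pow_succ 2 z]
          nlinarith
      exact_mod_cast this y h4
    have hyR4 : (4 : ℝ) ≤ y := by exact_mod_cast h4
    nlinarith

theorem hyp_chain {A : Matrix V V ℝ} (hA : A.IsHermitian) (h01 : ∀ i j, A i j = 0 ∨ A i j = 1)
    (hdiag : ∀ i, A i i = 0) (k : ℕ)
    (hk : (Finset.univ.filter fun a => hA.eigenvalues a ≤ 0).card + 1 ≤ k) (J : ℕ)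
    (hJ : k ≤ 2 ^ (2 ^ (J + 1))) :
    ∀ r m : ℕ, 1 ≤ m → m + r = J →
      Hyp A (dl (m + 1)) (k * 2 ^ r * Real.exp (Real.sqrt k * (25 / 2 / 2 ^ m))) := by
  intro r
  induction r with
  | zero =>
    intro m hm hmJ
    have hmJ' : m = J := by omega
    subst hmJ'
    have h := hyp_base hA h01 hdiag k hk (δ := dl (m + 1)) (dl_pos _).le (by
      unfold dl
      rw [one_div, inv_pow, inv_mul_le_iff₀ (by positivity), mul_one]
      exact_mod_cast hJ)
    refine h.mono (dl_pos _).le ?_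
    rw [pow_zero, mul_one]
    have : (1 : ℝ) ≤ Real.exp (Real.sqrt k * (25 / 2 / 2 ^ m)) :=
      Real.one_le_exp (by positivity)
    nlinarith [Nat.cast_nonneg (α := ℝ) k]
  | succ r ih =>
    intro m hm hmJ
    have h := ih (m + 1) (by omega) (by omega)
    have h2 := hyp_up hA h01 hdiag k hk (dl_pos _) (dl_lt_one _) h (δ' := dl (m + 1))
      (dl_pos _).le
    refine h2.mono (dl_pos _).le ?_
    have e1 : Real.sqrt (k * dl (m + 1)) = Real.sqrt k * dl m := by
      rw [Real.sqrt_mul (Nat.cast_nonneg _), sqrt_dl]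
    have e2 : m + 1 + 1 = m + 2 := rfl
    rw [e1, e2]
    have hnum := numeric m hm
    have h3 : Real.log (3 / dl (m + 2) ^ 2) * (Real.sqrt k * dl m) ≤
        Real.sqrt k * (25 / 4 / 2 ^ m) := by
      have := mul_le_mul_of_nonneg_left hnum (Real.sqrt_nonneg (k : ℝ))
      linarith
    calc 2 * (k * 2 ^ r * Real.exp (Real.sqrt k * (25 / 2 / 2 ^ (m + 1)))) *
          Real.exp (Real.log (3 / dl (m + 2) ^ 2) * (Real.sqrt k * dl m))
        ≤ 2 * (k * 2 ^ r * Real.exp (Real.sqrt k * (25 / 2 / 2 ^ (m + 1)))) *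
          Real.exp (Real.sqrt k * (25 / 4 / 2 ^ m)) :=
          mul_le_mul_of_nonneg_left (Real.exp_le_exp.2 h3) (by positivity)
      _ = k * 2 ^ (r + 1) * (Real.exp (Real.sqrt k * (25 / 2 / 2 ^ (m + 1))) *
          Real.exp (Real.sqrt k * (25 / 4 / 2 ^ m))) := by ring
      _ = k * 2 ^ (r + 1) * Real.exp (Real.sqrt k * (25 / 2 / 2 ^ m)) := by
          rw [← Real.exp_add]
          congr 2
          rw [pow_succ]
          ring

theorem multi {A : Matrix V V ℝ} (hA : A.IsHermitian) (h01 : ∀ i j, A i j = 0 ∨ A i j = 1)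
    (hdiag : ∀ i, A i i = 0) (k : ℕ) (hk2 : 2 ≤ k)
    (hk : (Finset.univ.filter fun a => hA.eigenvalues a ≤ 0).card + 1 ≤ k) :
    (Fintype.card V : ℝ) ≤ k ^ 2 * Real.exp (9.58 * Real.sqrt k) := by
  set J := Nat.log 2 k with hJ
  have hJ1 : 1 ≤ J := by
    rw [hJ]
    exact Nat.log_pos (by norm_num) hk2
  have hJk : 2 ^ J ≤ k := Nat.pow_log_le_self 2 (by omega)
  have hkJ : k ≤ 2 ^ (2 ^ (J + 1)) := by
    have h1 : k < 2 ^ (J + 1) := Nat.lt_pow_succ_log_self (by norm_num) k
    exact h1.le.trans (Nat.lt_two_pow_self).le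
  have h := hyp_chain hA h01 hdiag k hk J hkJ (J - 1) 1 le_rfl (by omega)
  have hb := card_bound hA h01 hdiag k hk (dl_pos _) (dl_lt_one _) (by positivity) h
  refine hb.trans ?_
  have hlog : Real.log (3 / dl (1 + 1) ^ 2) ≤ 6.655 := by
    rw [log_dl]
    have h1 := Real.log_two_lt_d9
    have h2 := log_three_le
    norm_num at h1 h2 ⊢
    linarith
  have h2J : 2 * ((k : ℝ) * 2 ^ (J - 1)) ≤ (k : ℝ) ^ 2 := by
    have e : (2 : ℝ) * (k * 2 ^ (J - 1)) = k * 2 ^ J := by
      obtain ⟨j, hj⟩ : ∃ j, J = j + 1 := ⟨J - 1, by omega⟩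
      rw [hj, Nat.add_sub_cancel, pow_succ]
      ring
    rw [e, pow_two]
    refine mul_le_mul_of_nonneg_left ?_ (Nat.cast_nonneg _)
    exact_mod_cast hJk
  have hexp : Real.exp (Real.sqrt k * (25 / 2 / 2 ^ 1)) *
      Real.exp (Real.log (3 / dl (1 + 1) ^ 2) * (Real.sqrt k / 2)) ≤
      Real.exp (9.58 * Real.sqrt k) := by
    rw [← Real.exp_add]
    apply Real.exp_le_exp.2
    have := mul_le_mul_of_nonneg_right hlog (show (0 : ℝ) ≤ Real.sqrt k / 2 by positivity)
    have h0 := Real.sqrt_nonneg (k : ℝ)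
    nlinarith
  calc 2 * (k * 2 ^ (J - 1) * Real.exp (Real.sqrt k * (25 / 2 / 2 ^ 1))) *
        Real.exp (Real.log (3 / dl (1 + 1) ^ 2) * (Real.sqrt k / 2))
      = (2 * ((k : ℝ) * 2 ^ (J - 1))) * (Real.exp (Real.sqrt k * (25 / 2 / 2 ^ 1)) *
        Real.exp (Real.log (3 / dl (1 + 1) ^ 2) * (Real.sqrt k / 2))) := by ring
    _ ≤ (k : ℝ) ^ 2 * Real.exp (9.58 * Real.sqrt k) :=
        mul_le_mul h2J hexp (by positivity) (by positivity)

/-- Elementary: `log x ≤ x / exp 1`. -/
theorem log_le_div_exp {x : ℝ} (hx : 0 < x) : Real.log x ≤ x / Real.exp 1 := by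
  have h := Real.log_le_sub_one_of_pos (show 0 < x / Real.exp 1 by positivity)
  rw [Real.log_div hx.ne' (Real.exp_pos 1).ne', Real.log_exp] at h
  linarith

theorem exp_step {B y : ℝ} (hy : 1 ≤ y) (hB : B ≤ Real.exp (9.93 * y)) :
    B + 1 ≤ Real.exp (10 * y) := by
  have h1 : Real.exp (10 * y) = Real.exp (9.93 * y) * Real.exp (0.07 * y) := by
    rw [← Real.exp_add]; congr 1; ring
  have h2 : 1 + 0.07 ≤ Real.exp (0.07 * y) := by
    have := Real.add_one_le_exp (0.07 * y)
    nlinarith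
  have h3 : 20 ≤ Real.exp (9.93 * y) := by
    have h4 : Real.exp 3 ≤ Real.exp (9.93 * y) := Real.exp_le_exp.2 (by nlinarith)
    have h5 : (2.7182818283 : ℝ) ^ 3 ≤ Real.exp 3 := by
      have : Real.exp 3 = Real.exp 1 ^ 3 := by rw [← Real.exp_nat_mul]; norm_num
      rw [this]
      exact pow_le_pow_left₀ (by norm_num) Real.exp_one_gt_d9.le 3
    norm_num at h5
    linarith
  rw [h1]
  nlinarith [Real.exp_pos (9.93 * y)]

theorem final {A : Matrix V V ℝ} (hA : A.IsHermitian) (h01 : ∀ i j, A i j = 0 ∨ A i j = 1)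
    (hdiag : ∀ i, A i i = 0) (k : ℕ) (hk2 : 2 ≤ k)
    (hk : (Finset.univ.filter fun a => hA.eigenvalues a ≤ 0).card + 1 ≤ k) :
    (Fintype.card V : ℝ) + 1 ≤ Real.exp (10 * Real.sqrt k) := by
  have hkR : (2 : ℝ) ≤ k := by exact_mod_cast hk2
  set y := Real.sqrt k with hy
  have hyy : y ^ 2 = k := Real.sq_sqrt (Nat.cast_nonneg _)
  have hy1 : 1 ≤ y := by
    rw [hy]
    exact Real.one_le_sqrt.2 (by linarith)
  apply exp_step hy1
  rcases Nat.lt_or_ge k 4096 with hlt | hge
  · refine (one_shot hA h01 hdiag k hk2 hk).trans ?_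
    have hkR' : (k : ℝ) ≤ 4096 := by exact_mod_cast hlt.le
    -- `log (√3 k) ≤ 8.87`
    have h1 : Real.log (Real.sqrt 3 * k) ≤ 8.8725 := by
      rw [Real.log_mul (by positivity) (by positivity), Real.log_sqrt (by norm_num)]
      have h2 : Real.log k ≤ 12 * Real.log 2 := by
        have : Real.log k ≤ Real.log ((2 : ℝ) ^ 12) :=
          Real.log_le_log (by linarith) (by norm_num; linarith)
        rwa [Real.log_pow] at this
      have h3 := log_three_le
      have h4 := Real.log_two_lt_d9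
      linarith
    -- `2 k ≤ exp (1.05 √k)`
    have h2 : 2 * (k : ℝ) ≤ Real.exp (1.05 * y) := by
      have h3 : Real.log (Real.sqrt 2 * y) ≤ (Real.sqrt 2 * y) / Real.exp 1 :=
        log_le_div_exp (by positivity)
      have h4 : 2 * (k : ℝ) = (Real.sqrt 2 * y) ^ 2 := by
        rw [mul_pow, Real.sq_sqrt (by norm_num), hyy]
      have h5 : 2 * (k : ℝ) = Real.exp (2 * Real.log (Real.sqrt 2 * y)) := by
        rw [h4, ← Real.exp_log (show 0 < (Real.sqrt 2 * y) ^ 2 by positivity), Real.log_pow]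
        push_cast
        rfl
      rw [h5]
      apply Real.exp_le_exp.2
      have h6 : Real.sqrt 2 ≤ 1.4143 := by
        rw [Real.sqrt_le_left (by norm_num)]
        norm_num
      have h7 : Real.sqrt 2 * y / Real.exp 1 ≤ 0.525 * y := by
        rw [div_le_iff₀ (Real.exp_pos 1)]
        have := Real.exp_one_gt_d9
        have h8 : Real.sqrt 2 ≤ 0.525 * Real.exp 1 := by linarith
        nlinarith
      linarith
    calc 2 * (k : ℝ) * Real.exp (y * Real.log (Real.sqrt 3 * k))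
        ≤ Real.exp (1.05 * y) * Real.exp (y * 8.8725) := by
          refine mul_le_mul h2 (Real.exp_le_exp.2 ?_) (Real.exp_pos _).le (Real.exp_pos _).le
          exact mul_le_mul_of_nonneg_left h1 (by linarith)
      _ = Real.exp (9.9225 * y) := by rw [← Real.exp_add]; congr 1; ring
      _ ≤ Real.exp (9.93 * y) := Real.exp_le_exp.2 (by nlinarith)
  · refine (multi hA h01 hdiag k hk2 hk).trans ?_
    have hkR' : (4096 : ℝ) ≤ k := by exact_mod_cast hge
    have hy64 : 64 ≤ y := by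
      rw [hy]
      apply Real.le_sqrt_of_sq_le
      norm_num
      linarith
    have h1 : Real.log y ≤ 4.16 + (y / 64 - 1) := by
      have h2 : Real.log y = Real.log 64 + Real.log (y / 64) := by
        rw [← Real.log_mul (by norm_num) (by positivity)]
        congr 1
        field_simp
      have h3 : Real.log 64 = 6 * Real.log 2 := by
        rw [show (64 : ℝ) = 2 ^ 6 by norm_num, Real.log_pow]
        norm_num
      have h4 := Real.log_two_lt_d9
      have h5 := Real.log_le_sub_one_of_pos (show 0 < y / 64 by positivity)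
      linarith
    have h2 : (k : ℝ) ^ 2 = Real.exp (4 * Real.log y) := by
      rw [← hyy, ← pow_mul, ← Real.exp_log (show 0 < y ^ (2 * 2) by positivity), Real.log_pow]
      norm_num
    rw [h2, ← Real.exp_add]
    apply Real.exp_le_exp.2
    nlinarith

end Pool.Agent.NPO
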