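import Mathlib

/-!
# Copositive forms and completely positive kernels
-/

namespace Pool.Agent.NPO

open Finset

variable {V : Type*} [Fintype V]

/-- Copositive forms. -/
def Copos (H : V → V → ℝ) : Prop :=
  ∀ v : V → ℝ, (∀ i, 0 ≤ v i) → 0 ≤ ∑ i, ∑ j, H i j * v i * v j

theorem Copos.scale {H : V → V → ℝ} (hH : Copos H) {z : V → ℝ} (hz : ∀ i, 0 ≤ z i) :
    Copos fun i j => H i j * z i * z j := by
  intro v hv
  have := hH (fun i => z i * v i) (fun i => mul_nonneg (hz i) (hv i))
  refine this.trans_eq ?_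
  refine Finset.sum_congr rfl fun i _ => Finset.sum_congr rfl fun j _ => ?_
  ring

theorem Copos.exp_mul {H : V → V → ℝ} (hH : Copos H) (x : V → ℝ) :
    Copos fun i j => H i j * Real.exp (x i * x j) := by
  intro v hv
  set c : ℝ := ∑ i, |x i| with hc
  have hxc : ∀ i, 0 ≤ x i + c := fun i => by
    have h1 : |x i| ≤ c := Finset.single_le_sum (f := fun i => |x i|)
      (fun _ _ => abs_nonneg _) (Finset.mem_univ i)
    have h2 := neg_abs_le (x i)
    linarith
  have hs : ∀ i j, HasSum (fun m : ℕ => H i j * Real.exp (-(c ^ 2) - c * x i - c * x j) *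
      v i * v j * (((x i + c) * (x j + c)) ^ m / (m.factorial : ℝ)))
      (H i j * Real.exp (x i * x j) * v i * v j) := by
    intro i j
    have h := (NormedSpace.expSeries_div_hasSum_exp ((x i + c) * (x j + c))).mul_left
      (H i j * Real.exp (-(c ^ 2) - c * x i - c * x j) * v i * v j)
    rw [← Real.exp_eq_exp_ℝ] at h
    have this : H i j * Real.exp (x i * x j) * v i * v j =
        H i j * Real.exp (-(c ^ 2) - c * x i - c * x j) * v i * v j *
        Real.exp ((x i + c) * (x j + c)) := by
      have e : Real.exp (x i * x j) = Real.exp (-(c ^ 2) - c * x i - c * x j) *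
          Real.exp ((x i + c) * (x j + c)) := by
        rw [← Real.exp_add]
        congr 1
        ring
      rw [e]
      ring
    rw [this]
    exact h
  have hs2 : HasSum (fun m : ℕ => ∑ i, ∑ j, H i j * Real.exp (-(c ^ 2) - c * x i - c * x j) *
      v i * v j * (((x i + c) * (x j + c)) ^ m / (m.factorial : ℝ)))
      (∑ i, ∑ j, H i j * Real.exp (x i * x j) * v i * v j) :=
    hasSum_sum fun i _ => hasSum_sum fun j _ => hs i j
  refine hs2.nonneg fun m => ?_
  have h0 := hH (fun i => v i * Real.exp (-(c ^ 2) / 2 - c * x i) * (x i + c) ^ m)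
    (fun i => mul_nonneg (mul_nonneg (hv i) (Real.exp_pos _).le) (pow_nonneg (hxc i) m))
  have hm : (0 : ℝ) ≤ 1 / (m.factorial : ℝ) := by positivity
  refine (mul_nonneg hm h0).trans_eq ?_
  rw [Finset.mul_sum]
  refine Finset.sum_congr rfl fun i _ => ?_
  rw [Finset.mul_sum]
  refine Finset.sum_congr rfl fun j _ => ?_
  have he : Real.exp (-(c ^ 2) - c * x i - c * x j) =
      Real.exp (-(c ^ 2) / 2 - c * x i) * Real.exp (-(c ^ 2) / 2 - c * x j) := by
    rw [← Real.exp_add]
    congr 1
    ring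
  rw [he, mul_pow]
  ring

theorem Copos.exp_sum {ι : Type*} {H : V → V → ℝ} (hH : Copos H) (S : Finset ι)
    (x : ι → V → ℝ) : Copos fun i j => H i j * Real.exp (∑ a ∈ S, x a i * x a j) := by
  classical
  induction S using Finset.induction_on with
  | empty => simpa using hH
  | insert b S hb ih =>
    have h := ih.exp_mul (x b)
    have e : (fun i j => H i j * Real.exp (∑ a ∈ S, x a i * x a j) * Real.exp (x b i * x b j)) =
        fun i j => H i j * Real.exp (∑ a ∈ insert b S, x a i * x a j) := by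
      funext i j
      rw [mul_assoc, ← Real.exp_add, Finset.sum_insert hb, add_comm]
    rw [e] at h
    exact h

/-- The Gaussian kernel of a finite configuration is completely positive. -/
theorem Copos.gauss {ι : Type*} {H : V → V → ℝ} (hH : Copos H) (S : Finset ι)
    (x : ι → V → ℝ) {w : V → ℝ} (hw : ∀ i, 0 ≤ w i) :
    0 ≤ ∑ i, ∑ j, H i j * (w i * w j * Real.exp (-(∑ a ∈ S, (x a i - x a j) ^ 2) / 2)) := by
  have h := hH.exp_sum S x (fun i => w i * Real.exp (-(∑ a ∈ S, x a i ^ 2) / 2))
    (fun i => mul_nonneg (hw i) (Real.exp_pos _).le)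
  refine h.trans_eq ?_
  refine Finset.sum_congr rfl fun i _ => Finset.sum_congr rfl fun j _ => ?_
  have e : Real.exp (-(∑ a ∈ S, (x a i - x a j) ^ 2) / 2) =
      Real.exp (-(∑ a ∈ S, x a i ^ 2) / 2) * Real.exp (-(∑ a ∈ S, x a j ^ 2) / 2) *
        Real.exp (∑ a ∈ S, x a i * x a j) := by
    rw [← Real.exp_add, ← Real.exp_add]
    congr 1
    have : ∑ a ∈ S, (x a i - x a j) ^ 2 =
        ∑ a ∈ S, x a i ^ 2 + ∑ a ∈ S, x a j ^ 2 - 2 * ∑ a ∈ S, x a i * x a j := by
      rw [Finset.mul_sum, ← Finset.sum_add_distrib, ← Finset.sum_sub_distrib]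
      refine Finset.sum_congr rfl fun a _ => by ring
    rw [this]
    ring
  rw [e]
  ring

end Pool.Agent.NPO
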