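import Pool.Agent.Lib_MP_30cc74_co.Spectral

/-!
# The number of negative eigenvalues of `S (A - d J) S`
-/

namespace Pool.Agent.NPO

open Finset

variable {V : Type*} [Fintype V] [DecidableEq V]

/-- The matrix `s_i s_j (A_ij - d)`. -/
def wmat (A : Matrix V V ℝ) (s : V → ℝ) (d : ℝ) : Matrix V V ℝ :=
  Matrix.of fun i j => s i * s j * (A i j - d)

omit [DecidableEq V] [Fintype V] in
theorem wmat_herm {A : Matrix V V ℝ} (hA : A.IsHermitian) (s : V → ℝ) (d : ℝ) :
    (wmat A s d).IsHermitian := by
  ext i j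
  have h : A j i = A i j := by
    have := congrFun (congrFun hA i) j
    simpa using this
  simp only [wmat, Matrix.conjTranspose_apply, Matrix.of_apply, star_trivial, h]
  ring

theorem card_neg_le {A : Matrix V V ℝ} (hA : A.IsHermitian) (s : V → ℝ) (d : ℝ) :
    (Finset.univ.filter fun a => (wmat_herm hA s d).eigenvalues a < 0).card ≤
      (Finset.univ.filter fun a => hA.eigenvalues a ≤ 0).card + 1 := by
  classical
  set hM := wmat_herm hA s d with hMdef
  let I := {a // hM.eigenvalues a < 0}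
  -- the vector with given coordinates
  let ψ : (I → ℝ) →ₗ[ℝ] (V → ℝ) := LinearMap.pi fun i => ∑ a : I, evec hM a.1 i • LinearMap.proj a
  have hψ : ∀ c i, ψ c i = ∑ a : I, evec hM a.1 i * c a := by
    intro c i
    simp [ψ]
  let T : (V → ℝ) →ₗ[ℝ] (V → ℝ) := LinearMap.pi fun i => s i • LinearMap.proj i
  have hT : ∀ x i, T x i = s i * x i := by
    intro x i
    simp [T]
  let ℓ : (I → ℝ) →ₗ[ℝ] ℝ := (∑ i, s i • LinearMap.proj i) ∘ₗ ψ
  have hℓ : ∀ c, ℓ c = ∑ i, s i * ψ c i := by
    intro c
    simp [ℓ]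
  -- the form of `M` on the vector with coordinates `c`
  have hform : ∀ c : I → ℝ, ∑ i, ∑ j, wmat A s d i j * ψ c i * ψ c j =
      ∑ a : I, hM.eigenvalues a.1 * c a ^ 2 := by
    intro c
    rw [form_eq hM]
    have hco : ∀ b, ∑ i, evec hM b i * ψ c i = if h : hM.eigenvalues b < 0 then c ⟨b, h⟩ else 0 := by
      intro b
      simp only [hψ]
      have : ∀ i, evec hM b i * ∑ a : I, evec hM a.1 i * c a =
          ∑ a : I, (evec hM b i * evec hM a.1 i) * c a := by
        intro i
        rw [Finset.mul_sum]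
        refine Finset.sum_congr rfl fun a _ => by ring
      rw [Finset.sum_congr rfl fun i _ => this i, Finset.sum_comm]
      simp only [← Finset.sum_mul, evec_orth]
      by_cases h : hM.eigenvalues b < 0
      · rw [dif_pos h, Finset.sum_eq_single ⟨b, h⟩]
        · simp
        · intro a _ ha
          have : b ≠ a.1 := fun hb => ha (Subtype.ext hb.symm)
          rw [if_neg this, zero_mul]
        · intro h'
          exact absurd (Finset.mem_univ _) h'
      · rw [dif_neg h]
        refine Finset.sum_eq_zero fun a _ => ?_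
        have : b ≠ a.1 := fun hb => h (hb ▸ a.2)
        rw [if_neg this, zero_mul]
    have h1 : ∀ b, hM.eigenvalues b * (∑ i, evec hM b i * ψ c i) ^ 2 =
        if h : hM.eigenvalues b < 0 then hM.eigenvalues b * c ⟨b, h⟩ ^ 2 else 0 := by
      intro b
      rw [hco b]
      split_ifs with h
      · rfl
      · simp
    rw [Finset.sum_congr rfl fun b _ => h1 b]
    rw [Finset.sum_dite]
    simp only [Finset.sum_const_zero, add_zero]
    refine Finset.sum_bij' (fun b _ => ⟨b.1, (Finset.mem_filter.1 b.2).2⟩)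
      (fun a _ => ⟨a.1, Finset.mem_filter.2 ⟨Finset.mem_univ _, a.2⟩⟩) ?_ ?_ ?_ ?_ ?_
    · intro _ _; exact Finset.mem_univ _
    · intro _ _; exact Finset.mem_attach _ _
    · intro _ _; rfl
    · intro _ _; rfl
    · intro _ _; rfl
  -- the relation between the two forms
  have hrel : ∀ x : V → ℝ, ∑ i, ∑ j, wmat A s d i j * x i * x j =
      ∑ i, ∑ j, A i j * T x i * T x j - d * (∑ i, s i * x i) ^ 2 := by
    intro x
    rw [pow_two, Finset.sum_mul_sum, Finset.mul_sum, ← Finset.sum_sub_distrib]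
    refine Finset.sum_congr rfl fun i _ => ?_
    rw [Finset.mul_sum, ← Finset.sum_sub_distrib]
    refine Finset.sum_congr rfl fun j _ => ?_
    rw [hT, hT]
    simp only [wmat, Matrix.of_apply]
    ring
  let Φ : LinearMap.ker ℓ →ₗ[ℝ] (V → ℝ) := (T ∘ₗ ψ) ∘ₗ (LinearMap.ker ℓ).subtype
  have hΦform : ∀ c : LinearMap.ker ℓ, ∑ i, ∑ j, A i j * Φ c i * Φ c j =
      ∑ a : I, hM.eigenvalues a.1 * (c : I → ℝ) a ^ 2 := by
    intro c
    have h1 := hrel (ψ c)
    have h2 : ∑ i, s i * ψ (c : I → ℝ) i = 0 := by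
      rw [← hℓ]
      exact c.2
    rw [h2, hform] at h1
    simp only [Φ, LinearMap.comp_apply, Submodule.subtype_apply]
    linarith
  have hinj : Function.Injective Φ := by
    rw [← LinearMap.ker_eq_bot, LinearMap.ker_eq_bot']
    intro c hc
    have h1 := hΦform c
    rw [hc] at h1
    simp only [Pi.zero_apply, mul_zero, Finset.sum_const_zero] at h1
    have h2 : ∀ a ∈ (Finset.univ : Finset I), 0 ≤ -(hM.eigenvalues a.1 * (c : I → ℝ) a ^ 2) := by
      intro a _
      have := a.2
      nlinarith [sq_nonneg ((c : I → ℝ) a)]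
    have h3 : ∑ a : I, -(hM.eigenvalues a.1 * (c : I → ℝ) a ^ 2) = 0 := by
      rw [Finset.sum_neg_distrib, ← h1, neg_zero]
    have h4 := (Finset.sum_eq_zero_iff_of_nonneg h2).1 h3
    apply Subtype.ext
    funext a
    have h5 := h4 a (Finset.mem_univ a)
    rw [neg_eq_zero] at h5
    rcases mul_eq_zero.1 h5 with h6 | h6
    · exact absurd h6 a.2.ne
    · exact pow_eq_zero_iff (two_ne_zero) |>.1 h6
  have hW := finrank_le_card hA (LinearMap.range Φ) (by
    rintro _ ⟨c, rfl⟩
    rw [hΦform c]
    refine Finset.sum_nonpos fun a _ => ?_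
    exact mul_nonpos_of_nonpos_of_nonneg a.2.le (sq_nonneg _))
  rw [LinearMap.finrank_range_of_inj hinj] at hW
  have hker := LinearMap.finrank_range_add_finrank_ker ℓ
  have hr : Module.finrank ℝ (LinearMap.range ℓ) ≤ 1 := by
    have := Submodule.finrank_le (LinearMap.range ℓ)
    simpa using this
  rw [Module.finrank_fintype_fun_eq_card, Fintype.card_subtype] at hker
  omega

end Pool.Agent.NPO
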