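import Pool.Agent.Lib_MP_30cc74_co.Base

/-!
# The recursion and the bound for the number of vertices
-/

namespace Pool.Agent.NPO

open Finset

variable {V : Type*} [Fintype V] [DecidableEq V]

omit [DecidableEq V] in
theorem Hyp.mono {A : Matrix V V ℝ} {δ E E' : ℝ} (hδ : 0 ≤ δ) (hE : E ≤ E') (h : Hyp A δ E) :
    Hyp A δ E' := by
  intro v hv
  have h1 := h v hv
  have h2 : δ * ((∑ i, v i) ^ 2 - E' * ∑ i, v i ^ 2) ≤
      δ * ((∑ i, v i) ^ 2 - E * ∑ i, v i ^ 2) := by
    refine mul_le_mul_of_nonneg_left ?_ hδ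
    have : 0 ≤ ∑ i, v i ^ 2 := Finset.sum_nonneg fun i _ => sq_nonneg _
    nlinarith
  exact ⟨h2.trans h1.1, h2.trans h1.2⟩

theorem hyp_up {A : Matrix V V ℝ} (hA : A.IsHermitian) (h01 : ∀ i j, A i j = 0 ∨ A i j = 1)
    (hdiag : ∀ i, A i i = 0) (k : ℕ)
    (hk : (Finset.univ.filter fun a => hA.eigenvalues a ≤ 0).card + 1 ≤ k)
    {δ E : ℝ} (hδ : 0 < δ) (hδ1 : δ < 1) (hyp : Hyp A δ E) {δ' : ℝ} (hδ' : 0 ≤ δ') :
    Hyp A δ' (2 * E * Real.exp (Real.log (3 / δ ^ 2) * Real.sqrt (k * δ'))) := by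
  intro v hv
  have hnn := form_nonneg h01 hv
  have hle := form_le h01 hv
  set E₁ := 2 * E * Real.exp (Real.log (3 / δ ^ 2) * Real.sqrt (k * δ')) with hE₁
  set T := ∑ i, v i with hT
  have hT0 : 0 ≤ T := Finset.sum_nonneg fun i _ => hv i
  have hL : 0 ≤ Real.log (3 / δ ^ 2) := by
    apply Real.log_nonneg
    rw [le_div_iff₀ (by positivity)]
    nlinarith
  rcases hT0.eq_or_lt with h0 | hTpos
  · have hz : ∀ i, v i = 0 := fun i =>
      (Finset.sum_eq_zero_iff_of_nonneg fun i _ => hv i).1 h0.symm i (Finset.mem_univ i)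
    simp [hz, ← h0]
  · set w : V → ℝ := fun i => v i / T with hw
    have hw0 : ∀ i, 0 ≤ w i := fun i => div_nonneg (hv i) hT0
    have hw1 : ∑ i, w i = 1 := by
      rw [hw, ← Finset.sum_div, ← hT, div_self hTpos.ne']
    have hvw : ∀ i, v i = T * w i := fun i => by
      simp only [hw]
      field_simp
    have hd : ∑ i, ∑ j, A i j * v i * v j = dens A w * T ^ 2 := by
      unfold dens
      rw [Finset.sum_mul]
      refine Finset.sum_congr rfl fun i _ => ?_
      rw [Finset.sum_mul]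
      refine Finset.sum_congr rfl fun j _ => ?_
      rw [hvw i, hvw j]
      ring
    have hc : ∑ i, v i ^ 2 = T ^ 2 * ∑ i, w i ^ 2 := by
      rw [Finset.mul_sum]
      refine Finset.sum_congr rfl fun i _ => ?_
      rw [hvw i]
      ring
    have hd0 : 0 ≤ dens A w := form_nonneg h01 hw0
    have hd1 : dens A w ≤ 1 := by
      have := form_le h01 hw0
      rw [hw1, one_pow] at this
      exact this
    have hT2 : 0 < T ^ 2 := by positivity
    by_cases hbig : δ' ≤ dens A w ∧ δ' ≤ 1 - dens A w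
    · have hE0 : 0 ≤ E₁ * ∑ i, v i ^ 2 := by
        have hs := main_step hA h01 hdiag k hk hδ hδ1 hyp hw0 hw1
        have : 0 < 2 * E * ∑ i, w i ^ 2 := (Real.exp_pos _).trans_le hs
        have hEpos : 0 ≤ E := by
          by_contra hneg
          push Not at hneg
          have h2 : 0 ≤ ∑ i, w i ^ 2 := Finset.sum_nonneg fun i _ => sq_nonneg _
          nlinarith
        have : 0 ≤ E₁ := by rw [hE₁]; positivity
        exact mul_nonneg this (Finset.sum_nonneg fun i _ => sq_nonneg _)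
      rw [hd]
      constructor
      · calc δ' * (T ^ 2 - E₁ * ∑ i, v i ^ 2) ≤ δ' * T ^ 2 :=
            mul_le_mul_of_nonneg_left (by linarith) hδ'
          _ ≤ dens A w * T ^ 2 := mul_le_mul_of_nonneg_right hbig.1 hT2.le
      · calc δ' * (T ^ 2 - E₁ * ∑ i, v i ^ 2) ≤ δ' * T ^ 2 :=
            mul_le_mul_of_nonneg_left (by linarith) hδ'
          _ ≤ (1 - dens A w) * T ^ 2 := mul_le_mul_of_nonneg_right hbig.2 hT2.le
          _ = T ^ 2 - dens A w * T ^ 2 := by ring
    · have hdd : dens A w - dens A w ^ 2 ≤ δ' := by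
        by_contra hcon
        push Not at hcon
        apply hbig
        constructor <;> nlinarith
      have hs := main_step hA h01 hdiag k hk hδ hδ1 hyp hw0 hw1
      have h1 : Real.exp (-(Real.log (3 / δ ^ 2) * Real.sqrt (k * δ'))) ≤
          2 * E * ∑ i, w i ^ 2 := by
        refine le_trans (Real.exp_le_exp.2 (neg_le_neg ?_)) hs
        refine mul_le_mul_of_nonneg_left ?_ hL
        exact Real.sqrt_le_sqrt (mul_le_mul_of_nonneg_left hdd (Nat.cast_nonneg _))
      have h2 : 1 ≤ E₁ * ∑ i, w i ^ 2 := by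
        have h3 : Real.exp (Real.log (3 / δ ^ 2) * Real.sqrt (k * δ')) *
            Real.exp (-(Real.log (3 / δ ^ 2) * Real.sqrt (k * δ'))) = 1 := by
          rw [← Real.exp_add, add_neg_cancel, Real.exp_zero]
        have h4 := mul_le_mul_of_nonneg_left h1
          (Real.exp_pos (Real.log (3 / δ ^ 2) * Real.sqrt (k * δ'))).le
        rw [h3] at h4
        rw [hE₁]
        linarith
      have h5 : δ' * (T ^ 2 - E₁ * ∑ i, v i ^ 2) ≤ 0 := by
        refine mul_nonpos_of_nonneg_of_nonpos hδ' ?_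
        rw [hc]
        nlinarith
      exact ⟨h5.trans hnn, h5.trans (by linarith)⟩

theorem card_bound {A : Matrix V V ℝ} (hA : A.IsHermitian) (h01 : ∀ i j, A i j = 0 ∨ A i j = 1)
    (hdiag : ∀ i, A i i = 0) (k : ℕ)
    (hk : (Finset.univ.filter fun a => hA.eigenvalues a ≤ 0).card + 1 ≤ k)
    {δ E : ℝ} (hδ : 0 < δ) (hδ1 : δ < 1) (hE : 0 ≤ E) (hyp : Hyp A δ E) :
    (Fintype.card V : ℝ) ≤ 2 * E * Real.exp (Real.log (3 / δ ^ 2) * (Real.sqrt k / 2)) := by
  rcases isEmpty_or_nonempty V with hV | hV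
  · rw [Fintype.card_eq_zero]
    simp only [Nat.cast_zero]
    positivity
  have hn : (0 : ℝ) < Fintype.card V := by exact_mod_cast Fintype.card_pos
  have hL : 0 ≤ Real.log (3 / δ ^ 2) := by
    apply Real.log_nonneg
    rw [le_div_iff₀ (by positivity)]
    nlinarith
  have hs := main_step hA h01 hdiag k hk hδ hδ1 hyp (w := fun _ => 1 / (Fintype.card V : ℝ))
    (fun _ => by positivity) (by
      rw [Finset.sum_const, Finset.card_univ, nsmul_eq_mul]
      field_simp)
  set d := dens A fun _ => 1 / (Fintype.card V : ℝ) with hd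
  have h1 : Real.sqrt (k * (d - d ^ 2)) ≤ Real.sqrt k / 2 := by
    have h2 : Real.sqrt k / 2 = Real.sqrt (k * (1 / 4)) := by
      rw [Real.sqrt_mul (Nat.cast_nonneg _)]
      have : Real.sqrt (1 / 4) = 1 / 2 := by
        rw [show (1 / 4 : ℝ) = (1 / 2) ^ 2 by norm_num]
        exact Real.sqrt_sq (by norm_num)
      rw [this]; ring
    rw [h2]
    apply Real.sqrt_le_sqrt
    refine mul_le_mul_of_nonneg_left ?_ (Nat.cast_nonneg _)
    nlinarith [sq_nonneg (d - 1 / 2)]
  have h3 : Real.exp (-(Real.log (3 / δ ^ 2) * (Real.sqrt k / 2))) ≤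
      2 * E * ∑ _i : V, (1 / (Fintype.card V : ℝ)) ^ 2 :=
    le_trans (Real.exp_le_exp.2 (neg_le_neg (mul_le_mul_of_nonneg_left h1 hL))) hs
  have h4 : ∑ _i : V, (1 / (Fintype.card V : ℝ)) ^ 2 = 1 / (Fintype.card V : ℝ) := by
    rw [Finset.sum_const, Finset.card_univ, nsmul_eq_mul]
    field_simp
  rw [h4] at h3
  have h5 : Real.exp (Real.log (3 / δ ^ 2) * (Real.sqrt k / 2)) *
      Real.exp (-(Real.log (3 / δ ^ 2) * (Real.sqrt k / 2))) = 1 := by
    rw [← Real.exp_add, add_neg_cancel, Real.exp_zero]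
  have h6 := mul_le_mul_of_nonneg_left h3
    (Real.exp_pos (Real.log (3 / δ ^ 2) * (Real.sqrt k / 2))).le
  rw [h5] at h6
  have h7 := mul_le_mul_of_nonneg_left h6 hn.le
  rw [mul_one] at h7
  refine h7.trans_eq ?_
  field_simp

/-- The bound from one step. -/
theorem one_shot {A : Matrix V V ℝ} (hA : A.IsHermitian) (h01 : ∀ i j, A i j = 0 ∨ A i j = 1)
    (hdiag : ∀ i, A i i = 0) (k : ℕ) (hk2 : 2 ≤ k)
    (hk : (Finset.univ.filter fun a => hA.eigenvalues a ≤ 0).card + 1 ≤ k) :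
    (Fintype.card V : ℝ) ≤ 2 * k * Real.exp (Real.sqrt k * Real.log (Real.sqrt 3 * k)) := by
  have hk0 : (2 : ℝ) ≤ k := by exact_mod_cast hk2
  have hyp := hyp_base hA h01 hdiag k hk (δ := 1 / (k : ℝ)) (by positivity)
    (by rw [one_div, inv_mul_cancel₀ (by positivity)])
  have h := card_bound hA h01 hdiag k hk (δ := 1 / (k : ℝ)) (E := k) (by positivity)
    (by rw [div_lt_one (by linarith)]; linarith) (by positivity) hyp
  refine h.trans_eq ?_
  congr 2
  have e : (3 : ℝ) / (1 / (k : ℝ)) ^ 2 = (Real.sqrt 3 * k) ^ 2 := by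
    rw [mul_pow, Real.sq_sqrt (by norm_num)]
    field_simp
  rw [e, Real.log_pow]
  push_cast
  ring

end Pool.Agent.NPO
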