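import Mathlib

/-!
# Spectral decomposition of real symmetric matrices; subspaces on which a form is nonpositive
-/

namespace Pool.Agent.NPO

open Finset

variable {V : Type*} [Fintype V] [DecidableEq V]

/-- The coordinates of the eigenvectors. -/
noncomputable def evec {M : Matrix V V ℝ} (hM : M.IsHermitian) (a i : V) : ℝ :=
  hM.eigenvectorBasis a i

theorem entry_eq {M : Matrix V V ℝ} (hM : M.IsHermitian) (i j : V) :
    M i j = ∑ a, hM.eigenvalues a * evec hM a i * evec hM a j := by
  have h := congrFun (congrFun hM.spectral_theorem i) j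
  rw [Unitary.conjStarAlgAut_apply, Matrix.mul_apply] at h
  rw [h]
  refine Finset.sum_congr rfl fun a _ => ?_
  rw [Matrix.mul_diagonal, Matrix.star_apply]
  simp only [Matrix.IsHermitian.eigenvectorUnitary_apply, evec, Function.comp_apply,
    RCLike.ofReal_real_eq_id, id_eq, star_trivial]
  ring

theorem evec_orth {M : Matrix V V ℝ} (hM : M.IsHermitian) (a b : V) :
    ∑ i, evec hM a i * evec hM b i = if a = b then 1 else 0 := by
  have h := (orthonormal_iff_ite.1 hM.eigenvectorBasis.orthonormal) a b
  rw [← h, PiLp.inner_apply]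
  refine Finset.sum_congr rfl fun i _ => ?_
  simp [evec, mul_comm]

theorem evec_complete {M : Matrix V V ℝ} (hM : M.IsHermitian) (x : V → ℝ)
    (h : ∀ a, ∑ i, evec hM a i * x i = 0) : x = 0 := by
  have h1 : ∀ a, inner ℝ (hM.eigenvectorBasis a) (WithLp.toLp 2 x : EuclideanSpace ℝ V) = 0 := by
    intro a
    rw [PiLp.inner_apply]
    rw [← h a]
    refine Finset.sum_congr rfl fun i _ => ?_
    simp [evec, mul_comm]
  have h2 : (WithLp.toLp 2 x : EuclideanSpace ℝ V) = 0 := by
    rw [← hM.eigenvectorBasis.sum_repr' (WithLp.toLp 2 x)]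
    refine Finset.sum_eq_zero fun a _ => ?_
    rw [h1 a, zero_smul]
  funext i
  have := congrArg (fun y : EuclideanSpace ℝ V => y i) h2
  simpa using this

/-- The quadratic form in terms of the eigenvectors. -/
theorem form_eq {M : Matrix V V ℝ} (hM : M.IsHermitian) (x : V → ℝ) :
    ∑ i, ∑ j, M i j * x i * x j = ∑ a, hM.eigenvalues a * (∑ i, evec hM a i * x i) ^ 2 := by
  have h1 : ∀ i j, M i j * x i * x j =
      ∑ a, hM.eigenvalues a * (evec hM a i * x i) * (evec hM a j * x j) := by
    intro i j
    rw [entry_eq hM i j, Finset.sum_mul, Finset.sum_mul]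
    refine Finset.sum_congr rfl fun a _ => by ring
  simp only [h1]
  have h2 : ∀ i, ∑ j, ∑ a, hM.eigenvalues a * (evec hM a i * x i) * (evec hM a j * x j) =
      ∑ a, ∑ j, hM.eigenvalues a * (evec hM a i * x i) * (evec hM a j * x j) :=
    fun i => Finset.sum_comm
  rw [Finset.sum_congr rfl fun i _ => h2 i, Finset.sum_comm]
  refine Finset.sum_congr rfl fun a _ => ?_
  rw [pow_two, Finset.sum_mul_sum, Finset.mul_sum]
  refine Finset.sum_congr rfl fun i _ => ?_
  rw [Finset.mul_sum]
  refine Finset.sum_congr rfl fun j _ => by ring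

theorem sum_eig_sq {M : Matrix V V ℝ} (hM : M.IsHermitian) :
    ∑ a, hM.eigenvalues a ^ 2 = ∑ i, ∑ j, M i j ^ 2 := by
  have h1 : ∀ i j, M i j ^ 2 = ∑ a, ∑ b, hM.eigenvalues a * hM.eigenvalues b *
      ((evec hM a i * evec hM b i) * (evec hM a j * evec hM b j)) := by
    intro i j
    rw [entry_eq hM i j, pow_two, Finset.sum_mul_sum]
    refine Finset.sum_congr rfl fun a _ => Finset.sum_congr rfl fun b _ => by ring
  have h2 : ∑ i, ∑ j, M i j ^ 2 = ∑ a, ∑ b, hM.eigenvalues a * hM.eigenvalues b *
      ((∑ i, evec hM a i * evec hM b i) * (∑ j, evec hM a j * evec hM b j)) := by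
    simp only [h1]
    calc ∑ i, ∑ j, ∑ a, ∑ b, hM.eigenvalues a * hM.eigenvalues b *
          ((evec hM a i * evec hM b i) * (evec hM a j * evec hM b j))
        = ∑ i, ∑ a, ∑ j, ∑ b, hM.eigenvalues a * hM.eigenvalues b *
          ((evec hM a i * evec hM b i) * (evec hM a j * evec hM b j)) :=
          Finset.sum_congr rfl fun i _ => Finset.sum_comm
      _ = ∑ a, ∑ i, ∑ j, ∑ b, hM.eigenvalues a * hM.eigenvalues b *
          ((evec hM a i * evec hM b i) * (evec hM a j * evec hM b j)) := Finset.sum_comm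
      _ = ∑ a, ∑ i, ∑ b, ∑ j, hM.eigenvalues a * hM.eigenvalues b *
          ((evec hM a i * evec hM b i) * (evec hM a j * evec hM b j)) :=
          Finset.sum_congr rfl fun a _ => Finset.sum_congr rfl fun i _ => Finset.sum_comm
      _ = ∑ a, ∑ b, ∑ i, ∑ j, hM.eigenvalues a * hM.eigenvalues b *
          ((evec hM a i * evec hM b i) * (evec hM a j * evec hM b j)) :=
          Finset.sum_congr rfl fun a _ => Finset.sum_comm
      _ = _ := by
          refine Finset.sum_congr rfl fun a _ => Finset.sum_congr rfl fun b _ => ?_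
          rw [Finset.sum_mul_sum, Finset.mul_sum]
          refine Finset.sum_congr rfl fun i _ => ?_
          rw [Finset.mul_sum]
  rw [h2]
  refine Finset.sum_congr rfl fun a _ => ?_
  rw [Finset.sum_eq_single a]
  · rw [evec_orth, if_pos rfl]; ring
  · intro b _ hb
    rw [evec_orth, if_neg (Ne.symm hb)]; ring
  · intro h
    exact absurd (Finset.mem_univ a) h

/-- A subspace on which the form is nonpositive has dimension at most the number of nonpositive
eigenvalues. -/
theorem finrank_le_card {M : Matrix V V ℝ} (hM : M.IsHermitian) (W : Submodule ℝ (V → ℝ))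
    (hW : ∀ x ∈ W, ∑ i, ∑ j, M i j * x i * x j ≤ 0) :
    Module.finrank ℝ W ≤ (Finset.univ.filter fun a => hM.eigenvalues a ≤ 0).card := by
  classical
  let φ : (V → ℝ) →ₗ[ℝ] ({a // hM.eigenvalues a ≤ 0} → ℝ) :=
    LinearMap.pi fun a => ∑ i, evec hM a.1 i • LinearMap.proj i
  have hφ : ∀ x a, φ x a = ∑ i, evec hM a.1 i * x i := by
    intro x a
    simp [φ]
  have hinj : Function.Injective (φ.comp W.subtype) := by
    rw [← LinearMap.ker_eq_bot, LinearMap.ker_eq_bot']
    intro x hx
    have h0 : ∀ a, hM.eigenvalues a ≤ 0 → ∑ i, evec hM a i * (x : V → ℝ) i = 0 := by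
      intro a ha
      have := congrFun hx ⟨a, ha⟩
      rw [LinearMap.comp_apply, hφ] at this
      exact this
    have h1 : ∑ a, hM.eigenvalues a * (∑ i, evec hM a i * (x : V → ℝ) i) ^ 2 ≤ 0 := by
      rw [← form_eq hM]
      exact hW x x.2
    have h2 : ∀ a ∈ Finset.univ,
        0 ≤ hM.eigenvalues a * (∑ i, evec hM a i * (x : V → ℝ) i) ^ 2 := by
      intro a _
      rcases le_or_gt (hM.eigenvalues a) 0 with h | h
      · rw [h0 a h]; simp
      · positivity
    have h3 := (Finset.sum_eq_zero_iff_of_nonneg h2).1 (le_antisymm h1 (Finset.sum_nonneg h2))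
    have h4 : ∀ a, ∑ i, evec hM a i * (x : V → ℝ) i = 0 := by
      intro a
      rcases le_or_gt (hM.eigenvalues a) 0 with h | h
      · exact h0 a h
      · have := h3 a (Finset.mem_univ a)
        rcases mul_eq_zero.1 this with h5 | h5
        · exact absurd h5 h.ne'
        · exact pow_eq_zero_iff (two_ne_zero) |>.1 h5
    exact Subtype.ext (evec_complete hM _ h4)
  have h := LinearMap.finrank_le_finrank_of_injective hinj
  rw [Module.finrank_fintype_fun_eq_card, Fintype.card_subtype] at h
  exact h

end Pool.Agent.NPO
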