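import Pool.Agent.Lib_MP_30cc74_co.Inertia
import Pool.Agent.Lib_MP_30cc74_co.Copos

/-!
# The step: from density bounds at the scale `δ'` to collision bounds
-/

namespace Pool.Agent.NPO

open Finset

variable {V : Type*} [Fintype V] [DecidableEq V]

/-- Both densities of `v` are at least `δ (1 - E ∑ v² / (∑ v)²)`. -/
def Hyp (A : Matrix V V ℝ) (δ E : ℝ) : Prop :=
  ∀ v : V → ℝ, (∀ i, 0 ≤ v i) →
    δ * ((∑ i, v i) ^ 2 - E * ∑ i, v i ^ 2) ≤ ∑ i, ∑ j, A i j * v i * v j ∧
    δ * ((∑ i, v i) ^ 2 - E * ∑ i, v i ^ 2) ≤ (∑ i, v i) ^ 2 - ∑ i, ∑ j, A i j * v i * v j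

theorem sum_diag (E : ℝ) (v : V → ℝ) :
    ∑ i, ∑ j, (if i = j then E else 0) * v i * v j = E * ∑ i, v i ^ 2 := by
  rw [Finset.mul_sum]
  refine Finset.sum_congr rfl fun i _ => ?_
  rw [Finset.sum_eq_single i]
  · rw [if_pos rfl]; ring
  · intro j _ hj
    rw [if_neg (Ne.symm hj)]; ring
  · intro h
    exact absurd (Finset.mem_univ i) h

theorem Hyp.copos1 {A : Matrix V V ℝ} {δ E : ℝ} (h : Hyp A δ E) :
    Copos fun i j => A i j - δ * (1 - if i = j then E else 0) := by
  intro v hv
  have h1 := (h v hv).1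
  have e : ∑ i, ∑ j, (A i j - δ * (1 - if i = j then E else 0)) * v i * v j =
      ∑ i, ∑ j, A i j * v i * v j - δ * ((∑ i, v i) ^ 2 - E * ∑ i, v i ^ 2) := by
    rw [← sum_diag E v, pow_two, Finset.sum_mul_sum, ← Finset.sum_sub_distrib, Finset.mul_sum,
      ← Finset.sum_sub_distrib]
    refine Finset.sum_congr rfl fun i _ => ?_
    rw [← Finset.sum_sub_distrib, Finset.mul_sum, ← Finset.sum_sub_distrib]
    refine Finset.sum_congr rfl fun j _ => by ring
  rw [e]
  linarith

theorem Hyp.copos2 {A : Matrix V V ℝ} {δ E : ℝ} (h : Hyp A δ E) :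
    Copos fun i j => 1 - A i j - δ * (1 - if i = j then E else 0) := by
  intro v hv
  have h1 := (h v hv).2
  have e : ∑ i, ∑ j, (1 - A i j - δ * (1 - if i = j then E else 0)) * v i * v j =
      (∑ i, v i) ^ 2 - ∑ i, ∑ j, A i j * v i * v j -
        δ * ((∑ i, v i) ^ 2 - E * ∑ i, v i ^ 2) := by
    rw [← sum_diag E v, pow_two, Finset.sum_mul_sum, ← Finset.sum_sub_distrib,
      ← Finset.sum_sub_distrib, Finset.mul_sum, ← Finset.sum_sub_distrib]
    refine Finset.sum_congr rfl fun i _ => ?_
    rw [← Finset.sum_sub_distrib, ← Finset.sum_sub_distrib, Finset.mul_sum,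
      ← Finset.sum_sub_distrib]
    refine Finset.sum_congr rfl fun j _ => by ring
  rw [e]
  linarith

omit [DecidableEq V] in
/-- Jensen's inequality for the exponential function. -/
theorem jensen (w : V → ℝ) (hw : ∀ i, 0 ≤ w i) (hw1 : ∑ i, w i = 1) (t : V → V → ℝ) :
    Real.exp (-∑ i, ∑ j, w i * w j * t i j) ≤ ∑ i, ∑ j, w i * w j * Real.exp (-t i j) := by
  set m := ∑ i, ∑ j, w i * w j * t i j with hm
  have h1 : ∀ i j, w i * w j * (Real.exp (-m) * (1 + (m - t i j))) ≤
      w i * w j * Real.exp (-t i j) := by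
    intro i j
    refine mul_le_mul_of_nonneg_left ?_ (mul_nonneg (hw i) (hw j))
    have : Real.exp (-t i j) = Real.exp (-m) * Real.exp (m - t i j) := by
      rw [← Real.exp_add]; congr 1; ring
    rw [this]
    refine mul_le_mul_of_nonneg_left ?_ (Real.exp_pos _).le
    have := Real.add_one_le_exp (m - t i j)
    linarith
  have h2 : ∑ i, ∑ j, w i * w j * (Real.exp (-m) * (1 + (m - t i j))) = Real.exp (-m) := by
    have hww : ∑ i, ∑ j, w i * w j = 1 := by
      rw [← Finset.sum_mul_sum, hw1, one_mul]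
    have e : ∑ i, ∑ j, w i * w j * (Real.exp (-m) * (1 + (m - t i j))) =
        Real.exp (-m) * ((1 + m) * (∑ i, ∑ j, w i * w j) - ∑ i, ∑ j, w i * w j * t i j) := by
      rw [Finset.mul_sum, ← Finset.sum_sub_distrib, Finset.mul_sum]
      refine Finset.sum_congr rfl fun i _ => ?_
      rw [Finset.mul_sum, ← Finset.sum_sub_distrib, Finset.mul_sum]
      refine Finset.sum_congr rfl fun j _ => by ring
    rw [e, hww, ← hm]
    ring
  rw [← h2]
  exact Finset.sum_le_sum fun i _ => Finset.sum_le_sum fun j _ => h1 i j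

/-- The density. -/
noncomputable def dens (A : Matrix V V ℝ) (w : V → ℝ) : ℝ := ∑ i, ∑ j, A i j * w i * w j

theorem main_step {A : Matrix V V ℝ} (hA : A.IsHermitian) (h01 : ∀ i j, A i j = 0 ∨ A i j = 1)
    (hdiag : ∀ i, A i i = 0) (k : ℕ)
    (hk : (Finset.univ.filter fun a => hA.eigenvalues a ≤ 0).card + 1 ≤ k)
    {δ E : ℝ} (hδ : 0 < δ) (hδ1 : δ < 1) (hyp : Hyp A δ E)
    {w : V → ℝ} (hw : ∀ i, 0 ≤ w i) (hw1 : ∑ i, w i = 1) :
    Real.exp (-(Real.log (3 / δ ^ 2) * Real.sqrt (k * (dens A w - dens A w ^ 2)))) ≤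
      2 * E * ∑ i, w i ^ 2 := by
  classical
  set d := dens A w with hd
  set s : V → ℝ := fun i => Real.sqrt (w i) with hs
  have hss : ∀ i, s i ^ 2 = w i := fun i => Real.sq_sqrt (hw i)
  have hs0 : ∀ i, 0 ≤ s i := fun i => Real.sqrt_nonneg _
  set hM := wmat_herm hA s d with hMdef
  set σ : ℝ := Real.log (3 / δ ^ 2) with hσ
  have hσ0 : 0 ≤ σ := by
    apply Real.log_nonneg
    rw [le_div_iff₀ (by positivity)]
    nlinarith
  have hσexp : Real.exp σ = 3 / δ ^ 2 := Real.exp_log (by positivity)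
  -- the configurations
  set Sx := Finset.univ.filter fun a => hM.eigenvalues a < 0 with hSx
  set Sy := Finset.univ.filter fun a => ¬ hM.eigenvalues a < 0 with hSy
  set x : V → V → ℝ := fun a i => Real.sqrt (σ * |hM.eigenvalues a|) * evec hM a i / s i with hx
  have hxx : ∀ a i j, x a i * x a j =
      σ * |hM.eigenvalues a| * (evec hM a i * evec hM a j) / (s i * s j) := by
    intro a i j
    simp only [hx]
    have := Real.mul_self_sqrt (mul_nonneg hσ0 (abs_nonneg (hM.eigenvalues a)))
    rw [div_mul_div_comm]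
    congr 1
    calc _ = (Real.sqrt (σ * |hM.eigenvalues a|) * Real.sqrt (σ * |hM.eigenvalues a|)) *
          (evec hM a i * evec hM a j) := by ring
      _ = _ := by rw [this]
  -- the relation between the two kernels
  have hgram : ∀ i j, ∑ a ∈ Sy, x a i * x a j - ∑ a ∈ Sx, x a i * x a j =
      σ * wmat A s d i j / (s i * s j) := by
    intro i j
    have h1 : ∑ a ∈ Sy, x a i * x a j = ∑ a ∈ Sy,
        σ * (hM.eigenvalues a * evec hM a i * evec hM a j) / (s i * s j) := by
      refine Finset.sum_congr rfl fun a ha => ?_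
      rw [hxx, abs_of_nonneg (not_lt.1 (Finset.mem_filter.1 ha).2)]
      ring
    have h2 : ∑ a ∈ Sx, x a i * x a j = -∑ a ∈ Sx,
        σ * (hM.eigenvalues a * evec hM a i * evec hM a j) / (s i * s j) := by
      rw [← Finset.sum_neg_distrib]
      refine Finset.sum_congr rfl fun a ha => ?_
      rw [hxx, abs_of_neg (Finset.mem_filter.1 ha).2]
      ring
    rw [h1, h2, sub_neg_eq_add, add_comm, hSx, hSy, Finset.sum_filter_add_sum_filter_not,
      ← Finset.sum_div, ← Finset.mul_sum, ← entry_eq hM i j]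
  have hdist : ∀ i j, s i ≠ 0 → s j ≠ 0 →
      -(∑ a ∈ Sy, (x a i - x a j) ^ 2) / 2 =
        -(∑ a ∈ Sx, (x a i - x a j) ^ 2) / 2 + σ * (if i = j then 0 else A i j) := by
    intro i j hi hj
    have hexp : ∀ S : Finset V, ∑ a ∈ S, (x a i - x a j) ^ 2 =
        ∑ a ∈ S, x a i * x a i + ∑ a ∈ S, x a j * x a j - 2 * ∑ a ∈ S, x a i * x a j := by
      intro S
      rw [Finset.mul_sum, ← Finset.sum_add_distrib, ← Finset.sum_sub_distrib]
      refine Finset.sum_congr rfl fun a _ => by ring
    have g1 := hgram i i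
    have g2 := hgram j j
    have g3 := hgram i j
    have e1 : σ * wmat A s d i i / (s i * s i) = -(σ * d) := by
      simp only [wmat, Matrix.of_apply, hdiag]
      field_simp
      ring
    have e2 : σ * wmat A s d j j / (s j * s j) = -(σ * d) := by
      simp only [wmat, Matrix.of_apply, hdiag]
      field_simp
      ring
    have e3 : σ * wmat A s d i j / (s i * s j) = σ * (A i j - d) := by
      simp only [wmat, Matrix.of_apply]
      field_simp
    rw [e1] at g1
    rw [e2] at g2
    rw [e3] at g3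
    rw [hexp, hexp]
    by_cases hij : i = j
    · subst hij
      rw [if_pos rfl]
      ring
    · rw [if_neg hij]
      linarith
  -- the kernels
  set Qx : V → V → ℝ := fun i j => w i * w j * Real.exp (-(∑ a ∈ Sx, (x a i - x a j) ^ 2) / 2)
    with hQx
  set Qy : V → V → ℝ := fun i j => w i * w j * Real.exp (-(∑ a ∈ Sy, (x a i - x a j) ^ 2) / 2)
    with hQy
  have hQx0 : ∀ i j, 0 ≤ Qx i j := fun i j =>
    mul_nonneg (mul_nonneg (hw i) (hw j)) (Real.exp_pos _).le
  have hQyx : ∀ i j, Qy i j = Qx i j + A i j * ((Real.exp σ - 1) * Qx i j) := by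
    intro i j
    by_cases hi : w i = 0
    · simp [hQx, hQy, hi]
    by_cases hj : w j = 0
    · simp [hQx, hQy, hj]
    have hi' : s i ≠ 0 := fun h => hi (by rw [← hss i, h]; ring)
    have hj' : s j ≠ 0 := fun h => hj (by rw [← hss j, h]; ring)
    simp only [hQx, hQy]
    rw [hdist i j hi' hj', Real.exp_add]
    by_cases hij : i = j
    · subst hij
      rw [if_pos rfl, hdiag]
      simp
    · rw [if_neg hij]
      rcases h01 i j with h | h
      · rw [h]; simp
      · rw [h]; simp only [mul_one]; ring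
  have hQxd : ∀ i, Qx i i = w i ^ 2 := by
    intro i
    simp only [hQx, sub_self]
    simp
    ring
  have hQyd : ∀ i, Qy i i = w i ^ 2 := by
    intro i
    rw [hQyx, hQxd, hdiag]
    ring
  -- sums
  set Z := ∑ i, ∑ j, Qx i j with hZ
  set a := ∑ i, ∑ j, A i j * Qx i j with ha
  set c := ∑ i, w i ^ 2 with hc
  have hdiagsum : ∀ Q : V → V → ℝ, (∀ i, Q i i = w i ^ 2) →
      ∑ i, ∑ j, (if i = j then E else 0) * Q i j = E * c := by
    intro Q hQ
    rw [hc, Finset.mul_sum]
    refine Finset.sum_congr rfl fun i _ => ?_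
    rw [Finset.sum_eq_single i]
    · rw [if_pos rfl, hQ]
    · intro j _ hj
      rw [if_neg (Ne.symm hj), zero_mul]
    · intro h
      exact absurd (Finset.mem_univ i) h
  have hineq1 : δ * (Z - E * c) ≤ a := by
    have h := hyp.copos1.gauss Sx x hw
    have e : ∑ i, ∑ j, (A i j - δ * (1 - if i = j then E else 0)) *
        (w i * w j * Real.exp (-(∑ a ∈ Sx, (x a i - x a j) ^ 2) / 2)) =
        a - δ * (Z - E * c) := by
      rw [← hdiagsum Qx hQxd, ha, hZ, ← Finset.sum_sub_distrib, Finset.mul_sum,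
        ← Finset.sum_sub_distrib]
      refine Finset.sum_congr rfl fun i _ => ?_
      rw [← Finset.sum_sub_distrib, Finset.mul_sum, ← Finset.sum_sub_distrib]
      refine Finset.sum_congr rfl fun j _ => ?_
      simp only [hQx]
      ring
    rw [e] at h
    linarith
  have hineq2 : δ * (Z + (Real.exp σ - 1) * a - E * c) ≤ Z - a := by
    have h := hyp.copos2.gauss Sy x hw
    have e : ∑ i, ∑ j, (1 - A i j - δ * (1 - if i = j then E else 0)) *
        (w i * w j * Real.exp (-(∑ a ∈ Sy, (x a i - x a j) ^ 2) / 2)) =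
        Z - a - δ * (Z + (Real.exp σ - 1) * a - E * c) := by
      have e1 : ∀ i j, (1 - A i j - δ * (1 - if i = j then E else 0)) *
        (w i * w j * Real.exp (-(∑ a ∈ Sy, (x a i - x a j) ^ 2) / 2)) =
          Qx i j - A i j * Qx i j - δ * (Qx i j + (Real.exp σ - 1) * (A i j * Qx i j) -
            (if i = j then E else 0) * Qy i j) := by
        intro i j
        have : w i * w j * Real.exp (-(∑ a ∈ Sy, (x a i - x a j) ^ 2) / 2) = Qy i j := rfl
        rw [this]
        have h2 := hQyx i j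
        rcases h01 i j with h | h
        · rw [h] at h2 ⊢
          rw [h2]; ring
        · rw [h] at h2 ⊢
          rw [h2]; ring
      simp only [e1]
      rw [← hdiagsum Qy hQyd, ha, hZ, ← Finset.sum_sub_distrib, Finset.mul_sum,
        ← Finset.sum_add_distrib, ← Finset.sum_sub_distrib, Finset.mul_sum,
        ← Finset.sum_sub_distrib]
      refine Finset.sum_congr rfl fun i _ => ?_
      rw [← Finset.sum_sub_distrib, Finset.mul_sum, ← Finset.sum_add_distrib,
        ← Finset.sum_sub_distrib, Finset.mul_sum, ← Finset.sum_sub_distrib]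
    rw [e] at h
    linarith
  -- lower bound for `Z`
  have hcardx : (Sx.card : ℝ) ≤ k := by
    have h := card_neg_le hA s d
    have h' : Sx.card ≤ k := by
      refine le_trans ?_ hk
      exact h
    exact_mod_cast h'
  have hFrob : ∑ a, hM.eigenvalues a ^ 2 = d - d ^ 2 := by
    rw [sum_eig_sq]
    have hww : ∑ i, ∑ j, w i * w j = 1 := by
      rw [← Finset.sum_mul_sum, hw1, one_mul]
    have e : ∀ i j, wmat A s d i j ^ 2 =
        A i j * w i * w j - 2 * d * (A i j * w i * w j) + d ^ 2 * (w i * w j) := by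
      intro i j
      simp only [wmat, Matrix.of_apply]
      have : (s i * s j * (A i j - d)) ^ 2 = (s i ^ 2) * (s j ^ 2) * (A i j - d) ^ 2 := by ring
      rw [this, hss, hss]
      rcases h01 i j with h | h
      · rw [h]; ring
      · rw [h]; ring
    have e' : ∑ i, ∑ j, wmat A s d i j ^ 2 = (∑ i, ∑ j, A i j * w i * w j) -
        2 * d * (∑ i, ∑ j, A i j * w i * w j) + d ^ 2 * (∑ i, ∑ j, w i * w j) := by
      rw [Finset.mul_sum, Finset.mul_sum, ← Finset.sum_sub_distrib, ← Finset.sum_add_distrib]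
      refine Finset.sum_congr rfl fun i _ => ?_
      rw [Finset.mul_sum, Finset.mul_sum, ← Finset.sum_sub_distrib, ← Finset.sum_add_distrib]
      exact Finset.sum_congr rfl fun j _ => e i j
    have hdd : ∑ i, ∑ j, A i j * w i * w j = d := rfl
    rw [e', hww, hdd]
    ring
  have hν : ∑ a ∈ Sx, |hM.eigenvalues a| ≤ Real.sqrt (k * (d - d ^ 2)) := by
    apply Real.le_sqrt_of_sq_le
    calc (∑ a ∈ Sx, |hM.eigenvalues a|) ^ 2 ≤ Sx.card * ∑ a ∈ Sx, |hM.eigenvalues a| ^ 2 :=
          sq_sum_le_card_mul_sum_sq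
      _ ≤ Sx.card * ∑ a, hM.eigenvalues a ^ 2 := by
          refine mul_le_mul_of_nonneg_left ?_ (Nat.cast_nonneg _)
          simp only [sq_abs]
          exact Finset.sum_le_sum_of_subset_of_nonneg (Finset.subset_univ _)
            fun _ _ _ => sq_nonneg _
      _ ≤ k * ∑ a, hM.eigenvalues a ^ 2 :=
          mul_le_mul_of_nonneg_right hcardx (Finset.sum_nonneg fun _ _ => sq_nonneg _)
      _ = k * (d - d ^ 2) := by rw [hFrob]
  have hZlow : Real.exp (-(σ * Real.sqrt (k * (d - d ^ 2)))) ≤ Z := by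
    have hj := jensen w hw hw1 fun i j => (∑ a ∈ Sx, (x a i - x a j) ^ 2) / 2
    have hZ' : ∑ i, ∑ j, w i * w j * Real.exp (-((∑ a ∈ Sx, (x a i - x a j) ^ 2) / 2)) = Z := by
      rw [hZ]
      refine Finset.sum_congr rfl fun i _ => Finset.sum_congr rfl fun j _ => ?_
      simp only [hQx]
      rw [neg_div]
    rw [hZ'] at hj
    refine le_trans ?_ hj
    apply Real.exp_le_exp.2
    apply neg_le_neg
    -- the mean distance
    have hmean : ∑ i, ∑ j, w i * w j * ((∑ a ∈ Sx, (x a i - x a j) ^ 2) / 2) =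
        ∑ a ∈ Sx, (∑ i, w i * x a i ^ 2 - (∑ i, w i * x a i) ^ 2) := by
      have e1 : ∀ i j, w i * w j * ((∑ a ∈ Sx, (x a i - x a j) ^ 2) / 2) =
          ∑ a ∈ Sx, (w j * (w i * x a i ^ 2) / 2 + w i * (w j * x a j ^ 2) / 2 -
            (w i * x a i) * (w j * x a j)) := by
        intro i j
        rw [Finset.sum_div, Finset.mul_sum]
        refine Finset.sum_congr rfl fun a _ => by ring
      simp only [e1]
      rw [Finset.sum_congr rfl fun i _ => Finset.sum_comm, Finset.sum_comm]
      refine Finset.sum_congr rfl fun a _ => ?_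
      simp only [Finset.sum_sub_distrib, Finset.sum_add_distrib, ← Finset.sum_div,
        ← Finset.mul_sum, ← Finset.sum_mul]
      rw [hw1]
      ring
    rw [hmean]
    calc ∑ a ∈ Sx, (∑ i, w i * x a i ^ 2 - (∑ i, w i * x a i) ^ 2)
        ≤ ∑ a ∈ Sx, σ * |hM.eigenvalues a| := by
          refine Finset.sum_le_sum fun a _ => ?_
          have h1 : ∑ i, w i * x a i ^ 2 ≤ σ * |hM.eigenvalues a| := by
            have h2 : ∑ i, evec hM a i * evec hM a i = 1 := by
              rw [evec_orth, if_pos rfl]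
            calc ∑ i, w i * x a i ^ 2 ≤
                ∑ i, σ * |hM.eigenvalues a| * (evec hM a i * evec hM a i) := by
                  refine Finset.sum_le_sum fun i _ => ?_
                  rw [pow_two, hxx]
                  by_cases hi : s i = 0
                  · rw [hi]
                    simp only [mul_zero, div_zero]
                    have := mul_nonneg hσ0 (abs_nonneg (hM.eigenvalues a))
                    exact mul_nonneg this (mul_self_nonneg _)
                  · rw [← hss i]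
                    apply le_of_eq
                    field_simp
              _ = σ * |hM.eigenvalues a| := by
                  rw [← Finset.mul_sum, h2, mul_one]
          have := sq_nonneg (∑ i, w i * x a i)
          linarith
      _ = σ * ∑ a ∈ Sx, |hM.eigenvalues a| := by rw [Finset.mul_sum]
      _ ≤ σ * Real.sqrt (k * (d - d ^ 2)) := mul_le_mul_of_nonneg_left hν hσ0
  -- conclusion
  have hZpos : 0 < Z := (Real.exp_pos _).trans_le hZlow
  refine hZlow.trans ?_
  by_contra hcon
  push Not at hcon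
  have h1 : δ * (Z / 2) < a := by
    refine lt_of_lt_of_le ?_ hineq1
    refine mul_lt_mul_of_pos_left ?_ hδ
    linarith
  have h3 : 0 ≤ Real.exp σ := (Real.exp_pos _).le
  have h4 : Real.exp σ * (δ * (Z / 2)) ≤ Real.exp σ * a := mul_le_mul_of_nonneg_left h1.le h3
  have h5 : Real.exp σ * (δ * (Z / 2)) = 3 / (2 * δ) * Z := by
    rw [hσexp]
    field_simp
  have haZ : a ≤ Z := by
    rw [ha, hZ]
    refine Finset.sum_le_sum fun i _ => Finset.sum_le_sum fun j _ => ?_
    rcases h01 i j with h | h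
    · rw [h, zero_mul]; exact hQx0 i j
    · rw [h, one_mul]
  have h6 : δ * (3 / (2 * δ) * Z - Z / 2) ≤ δ * (Z + (Real.exp σ - 1) * a - E * c) := by
    refine mul_le_mul_of_nonneg_left ?_ hδ.le
    nlinarith [h4, h5, haZ, hcon]
  have h7 : δ * (3 / (2 * δ) * Z - Z / 2) = (3 / 2 - δ / 2) * Z := by
    field_simp
  have h8 : 0 ≤ a := le_trans (by positivity) h1.le
  nlinarith [h6, h7, hineq2, h8, hZpos, hδ1]

end Pool.Agent.NPO
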